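import Pool.Agent.U173.PQ.Defs

/-!
# Denominators of the slopes of Frobenius: definitions
-/

set_option autoImplicit false

open CategoryTheory AlgebraicGeometry

universe u

namespace Pool.Agent.U173.DN

open Pool.Agent.H914 Pool.Agent.H914.VarClass Pool.Agent.H914.VarClass.Obj
  Pool.Agent.H914.WeilCohomology Pool.Agent.H281R3.HT Pool.Agent.TH125.Gal
  Pool.Agent.U173.PT Pool.Agent.U173.PQ

/-- `s` is the slope of the algebraic number `x` at the place `v` with residue field of `q = p ^ m`
elements: `x` has the absolute value `q ^ (-s)`. -/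
def IsSlope {Γ : Type} (v : Place Γ) (x : AlgebraicClosure ℚ) (s : ℚ) : Prop :=
  ‖v.ι x‖ = ((v.p : ℝ) ^ v.m) ^ (-(s : ℝ))

section Number

variable {Γ : Type} (v : Place Γ) (R : ℕ) {Ω : Type} [Field Ω] [CharZero Ω]

/-- For some embedding of the algebraic numbers in `Ω` the number `ν` has at `v` a slope whose
denominator is divisible by `R`. -/
def HasDenominator (ν : Ω) : Prop :=
  ∃ (τ : AlgebraicClosure ℚ →+* Ω) (x : AlgebraicClosure ℚ) (s : ℚ), τ x = ν ∧ IsSlope v x s ∧
    R ∣ s.den

/-- The number `ν` is algebraic, and for all embeddings of the algebraic numbers in `Ω` it has at `v` a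
slope whose denominator is not divisible by `R`. -/
def AvoidsDenominator (ν : Ω) : Prop :=
  IsIntegral ℚ ν ∧ ∀ (τ : AlgebraicClosure ℚ →+* Ω) (x : AlgebraicClosure ℚ), τ x = ν →
    ∃ s : ℚ, IsSlope v x s ∧ ¬ R ∣ s.den

end Number

section Act

variable {K : Type} [Field K] [CharZero K] {A : Type} [Ring A] [Algebra K A] {Γ : Type} [Group Γ]

/-- The eigenvalues of the Frobenius at `v` on the subspace `U` avoid the denominator `R`. -/
def AvoidsAct (v : Place Γ) (R : ℕ) (ρ : Γ →* (A ≃ₐ[K] A)) (U : Submodule K A) : Prop :=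
  ∀ (α : K), ∀ t ∈ U, IsEigen ρ v.σ α t → AvoidsDenominator v R α

/-- Each eigenvalue of the Frobenius at `v` on the subspace `U` is, up to a root of unity, a rational
power of `p`, or it has the denominator `R`. -/
def DenominatorAct (v : Place Γ) (R : ℕ) (ρ : Γ →* (A ≃ₐ[K] A)) (U : Submodule K A) : Prop :=
  ∀ (α : K), ∀ t ∈ U, IsEigen ρ v.σ α t →
    (∃ (N : ℕ) (b : ℤ), 0 < N ∧ α ^ N = (v.p : K) ^ b) ∨ HasDenominator v R α

/-- The space `A` is the direct sum of `S` and a subspace `T` stable under `Γ`, such that for all places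
`v` in `P` the eigenvalues on `T` of the Frobenius at `v` which are not supersingular have the
denominator `R v`, and such that no nonzero subspace of `T` which is stable under a subgroup of finite
index is supersingular at all places in `P`. -/
def SplitsAct (P : Set (Place Γ)) (R : Place Γ → ℕ) (ρ : Γ →* (A ≃ₐ[K] A)) (S : Submodule K A) :
    Prop :=
  ∃ T : Submodule K A, StableAct ρ ⊤ T ∧ IsCompl T S ∧ (∀ v ∈ P, DenominatorAct v (R v) ρ T) ∧
    ∀ Δ : Subgroup Γ, Δ.FiniteIndex → ∀ U ≤ T, StableAct ρ Δ U →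
      (∀ v ∈ P, SupersingularAct v ρ U) → U = ⊥

/-- The part of `A` of degree `k` and slope `s`: the sum of the generalised eigenspaces of the
Frobenius at `v` for the numbers `τ x` with slope `s`. -/
noncomputable def slopeSpace (v : Place Γ) (gr : ℕ → Submodule K A) (ρ : Γ →* (A ≃ₐ[K] A))
    (τ : AlgebraicClosure ℚ →+* K) (k : ℕ) (s : ℚ) : Submodule K A :=
  ⨆ (x : AlgebraicClosure ℚ) (_ : IsSlope v x s),
    gr k ⊓ Module.End.maxGenEigenspace (ρ v.σ).toLinearMap (τ x)

/-- The known properties of the eigenvalues of the Frobenius at a place `v` of good reduction: they are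
algebraic and have rational slopes; the multiplicity of a slope in a degree is divisible by the
denominator of the slope, and the slopes `s` and `k - s` have the same multiplicity in the degree
`k`. -/
structure NewtonAct (v : Place Γ) (gr : ℕ → Submodule K A) (ρ : Γ →* (A ≃ₐ[K] A)) : Prop where
  graded : ∀ k, ∀ a ∈ gr k, ρ v.σ a ∈ gr k
  algebraic : ∀ (α : K) (t : A), IsEigen ρ v.σ α t → IsIntegral ℚ α ∧
    ∀ (τ : AlgebraicClosure ℚ →+* K) (x : AlgebraicClosure ℚ), τ x = α → ∃ s : ℚ, IsSlope v x s
  multiple : ∀ (τ : AlgebraicClosure ℚ →+* K) (k : ℕ) (s : ℚ),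
    s.den ∣ Module.finrank K (slopeSpace v gr ρ τ k s)
  symmetric : ∀ (τ : AlgebraicClosure ℚ →+* K) (k : ℕ) (s : ℚ),
    Module.finrank K (slopeSpace v gr ρ τ k (k - s)) = Module.finrank K (slopeSpace v gr ρ τ k s)

/-- Each eigenvalue on `A` of the Frobenius at `v` is the product of a power of `q = p ^ m` with
eigenvalues on spaces `gr k` of dimension less than `2 R`. -/
def SmallAct (v : Place Γ) (R : ℕ) (gr : ℕ → Submodule K A) (ρ : Γ →* (A ≃ₐ[K] A)) : Prop :=
  ∀ (α : K) (t : A), IsEigen ρ v.σ α t → ∃ (n : ℤ) (y : List K),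
    α = ((v.p : K) ^ v.m) ^ n * y.prod ∧
      ∀ γ ∈ y, ∃ k, Module.finrank K (gr k) < 2 * R ∧ ∃ t ∈ gr k, IsEigen ρ v.σ γ t

/-- The slopes of all eigenvalues of the Frobenius at `v` have denominators which are not divisible by
`R`; or `R > 2`, the eigenvalues have the properties of the case of good reduction at `v`, and all
Betti numbers are less than `2 R`, or at least the Frobenius is determined by such degrees
(`SmallAct`). -/
def AvoidsGraded (v : Place Γ) (R : ℕ) (gr : ℕ → Submodule K A) (ρ : Γ →* (A ≃ₐ[K] A)) : Prop :=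
  AvoidsAct v R ρ ⊤ ∨ (2 < R ∧ NewtonAct v gr ρ ∧
    ((∀ n, Module.finrank K (gr n) < 2 * R) ∨ SmallAct v R gr ρ))

end Act

variable {k : Type u} [Field k] {𝒱 : VarClass k} {ops : CycleOps 𝒱}
  {W : WeilCohomology.{u, 0} ops} {Γ : Type} [Group Γ]

/-- The variety `A` avoids the denominator `R` at the place `v`. -/
def Avoids (v : Place Γ) (R : ℕ) (A : GVar W Γ) : Prop :=
  AvoidsGraded v R (W.gr A.X) A.act

/-- The varieties `X i`, `Y j` and `Z` have Galois actions (with the usual formal properties for the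
`X i`) and zero-cycles of nonzero degree. For each `i` and each place `v` in the set `P i`, the number
`R i v` is a power of a prime number; the cohomology of `X i` is the direct sum of the span of the Tate
classes and a subspace as in `SplitsAct`; and the varieties `X j` with indices `j` behind `i` in the
list `l`, the `Y j`, `j` in the list `l'`, and `Z` avoid the denominator `R i v` at `v`. -/
structure IsDenominatorSystem {I I' : Type} (χ : Γ →* W.Kˣ) (P : I → Set (Place Γ))
    (R : I → Place Γ → ℕ) (X : I → GVar W Γ) (Y : I' → GVar W Γ) (Z : GVar W Γ) (l : List I)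
    (l' : List I') : Prop where
  galois : ∀ i, IsGaloisVar χ (X i)
  point : ∀ i, HasPoint W (X i).X
  point_others : ∀ j, HasPoint W (Y j).X
  point_base : HasPoint W Z.X
  pos : ∀ i, ∀ v ∈ P i, 0 < v.m
  character : ∀ i, ∀ v ∈ P i, ((χ v.σ : W.Kˣ) : W.K) = (v.p : W.K) ^ v.m
  prime : ∀ i, ∀ v ∈ P i, IsPrimePow (R i v)
  splits : ∀ i, SplitsAct (P i) (R i) (X i).act (tateSpan χ (W.gr (X i).X) (X i).act)
  pairs : l.Pairwise fun i j => ∀ v ∈ P i, Avoids v (R i v) (X j)
  others : ∀ i, ∀ j ∈ l', ∀ v ∈ P i, Avoids v (R i v) (Y j)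
  base : ∀ i, ∀ v ∈ P i, Avoids v (R i v) Z

end Pool.Agent.U173.DN
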