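import Pool.Agent.U173.PT.Fin
import Pool.Agent.U173.DN.Defs

/-!
# Denominators of slopes: arithmetic
-/

set_option autoImplicit false
set_option linter.unusedSectionVars false

open Polynomial

namespace Pool.Agent.U173.DN

open Pool.Agent.U173.PT Pool.Agent.TH121.KT

variable {Γ : Type} {v : Place Γ}

theorem q_pos (v : Place Γ) : (0 : ℝ) < (v.p : ℝ) ^ v.m :=
  pow_pos (by exact_mod_cast v.prime.out.pos) _

theorem one_lt_q (hm : 0 < v.m) : (1 : ℝ) < (v.p : ℝ) ^ v.m :=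
  one_lt_pow₀ (by exact_mod_cast v.prime.out.one_lt) hm.ne'

theorem IsSlope.mul {x y : AlgebraicClosure ℚ} {s t : ℚ} (hx : IsSlope v x s)
    (hy : IsSlope v y t) : IsSlope v (x * y) (s + t) := by
  unfold IsSlope at *
  rw [map_mul, norm_mul, hx, hy, ← Real.rpow_add (q_pos v)]
  congr 1
  push_cast
  ring

theorem IsSlope.unique (hm : 0 < v.m) {x : AlgebraicClosure ℚ} {s t : ℚ} (hs : IsSlope v x s)
    (ht : IsSlope v x t) : s = t := by
  unfold IsSlope at hs ht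
  rw [hs] at ht
  have h := (Real.rpow_right_inj (q_pos v) (one_lt_q hm).ne').1 ht
  have h1 : (s : ℝ) = t := neg_injective h
  exact_mod_cast h1

theorem norm_natCast_p (v : Place Γ) : ‖((v.p : ℕ) : PadicAlgCl v.p)‖ = ((v.p : ℝ))⁻¹ := by
  have h := PadicAlgCl.norm_extends (p := v.p) (v.p : ℚ_[v.p])
  rw [show (algebraMap ℚ_[v.p] (PadicAlgCl v.p)) (v.p : ℚ_[v.p]) = ((v.p : ℕ) : PadicAlgCl v.p) by
    simp] at h
  rw [h, Padic.norm_p]

theorem isSlope_q_zpow (v : Place Γ) (n : ℤ) :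
    IsSlope v ((((v.p : ℕ) : AlgebraicClosure ℚ) ^ v.m) ^ n) (n : ℚ) := by
  unfold IsSlope
  rw [map_zpow₀, map_pow, map_natCast, norm_zpow, norm_pow, norm_natCast_p]
  rw [inv_pow, inv_zpow', ← Real.rpow_intCast]
  congr 1
  push_cast
  ring

section Number

variable {R : ℕ} {Ω : Type} [Field Ω] [CharZero Ω]

theorem primePow_dvd_lcm {R a b : ℕ} (hR : IsPrimePow R) (ha : a ≠ 0) (hb : b ≠ 0)
    (h : R ∣ a.lcm b) : R ∣ a ∨ R ∣ b := by
  obtain ⟨r, e, hr, he, rfl⟩ := hR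
  have hr' : r.Prime := hr.nat_prime
  rw [hr'.pow_dvd_iff_le_factorization (Nat.lcm_ne_zero ha hb), Nat.factorization_lcm ha hb,
    Finsupp.sup_apply, le_sup_iff] at h
  rcases h with h | h
  · exact Or.inl ((hr'.pow_dvd_iff_le_factorization ha).2 h)
  · exact Or.inr ((hr'.pow_dvd_iff_le_factorization hb).2 h)

theorem not_dvd_add (hR : IsPrimePow R) {s t : ℚ} (hs : ¬ R ∣ s.den) (ht : ¬ R ∣ t.den) :
    ¬ R ∣ (s + t).den := by
  intro h
  rcases primePow_dvd_lcm hR s.den_ne_zero t.den_ne_zero (h.trans (Rat.add_den_dvd_lcm s t)) with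
    h1 | h1
  · exact hs h1
  · exact ht h1

/-- products avoid the denominator -/
theorem AvoidsDenominator.mul (hR : IsPrimePow R) {α β : Ω} (hα : AvoidsDenominator v R α)
    (hβ : AvoidsDenominator v R β) : AvoidsDenominator v R (α * β) := by
  refine ⟨hα.1.mul hβ.1, fun τ x hx => ?_⟩
  obtain ⟨a, -, ha⟩ := exists_root τ (minpoly.ne_zero hα.1) (minpoly.aeval ℚ α)
  obtain ⟨b, -, hb⟩ := exists_root τ (minpoly.ne_zero hβ.1) (minpoly.aeval ℚ β)
  obtain ⟨s, hs, hs'⟩ := hα.2 τ a ha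
  obtain ⟨t, ht, ht'⟩ := hβ.2 τ b hb
  have hxab : x = a * b := τ.injective (by rw [hx, map_mul, ha, hb])
  exact ⟨s + t, hxab ▸ hs.mul ht, not_dvd_add hR hs' ht'⟩

theorem avoids_q (hR : IsPrimePow R) (v : Place Γ) (n : ℤ) :
    AvoidsDenominator v R (((v.p : Ω) ^ v.m) ^ n) := by
  refine ⟨?_, fun τ x hx => ?_⟩
  · have h : ((v.p : Ω) ^ v.m) ^ n = algebraMap ℚ Ω (((v.p : ℚ) ^ v.m) ^ n) := by
      rw [map_zpow₀, map_pow, map_natCast]
    rw [h]
    exact isIntegral_algebraMap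
  · have hx' : x = (((v.p : ℕ) : AlgebraicClosure ℚ) ^ v.m) ^ n :=
      τ.injective (by rw [hx, map_zpow₀, map_pow, map_natCast])
    refine ⟨(n : ℚ), hx' ▸ isSlope_q_zpow v n, ?_⟩
    rw [Rat.den_intCast]
    exact fun h => hR.one_lt.ne' (Nat.dvd_one.1 h)

theorem avoids_prod (hR : IsPrimePow R) (y : List Ω) (h : ∀ a ∈ y, AvoidsDenominator v R a) :
    AvoidsDenominator v R y.prod := by
  induction y with
  | nil =>
    have h1 := avoids_q (Ω := Ω) hR v 0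
    rwa [zpow_zero] at h1
  | cons a y ih =>
    rw [List.prod_cons]
    exact (h a List.mem_cons_self).mul hR (ih fun b hb => h b (List.mem_cons_of_mem _ hb))

/-- **No resonance.** -/
theorem no_resonance (hm : 0 < v.m) {α γ : Ω} (hα : HasDenominator v R α)
    (hγ : AvoidsDenominator v R γ) {n j : ℕ} (hn : 0 < n)
    (h : (α * γ) ^ n = ((v.p : Ω) ^ v.m) ^ (n * j)) : False := by
  obtain ⟨τ, x, s, hx, hs, hRs⟩ := hα
  obtain ⟨y, -, hy⟩ := exists_root τ (minpoly.ne_zero hγ.1) (minpoly.aeval ℚ γ)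
  obtain ⟨t, ht, hRt⟩ := hγ.2 τ y hy
  have h1 : (x * y) ^ n = (((v.p : ℕ) : AlgebraicClosure ℚ) ^ v.m) ^ (n * j) :=
    τ.injective (by rw [map_pow, map_mul, hx, hy, h, map_pow, map_pow, map_natCast])
  have h2 : IsSlope v (x * y) (s + t) := hs.mul ht
  have h3 : IsSlope v (x * y) (j : ℤ) := by
    have h4 := isSlope_q_zpow v (j : ℤ)
    unfold IsSlope at h4 ⊢
    have h5 : ‖v.ι (x * y)‖ ^ n =
        ‖v.ι ((((v.p : ℕ) : AlgebraicClosure ℚ) ^ v.m) ^ (j : ℤ))‖ ^ n := by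
      rw [← norm_pow, ← norm_pow, ← map_pow, ← map_pow, h1, zpow_natCast, ← pow_mul, ← pow_mul,
        ← pow_mul]
      congr 3
      ring
    rw [(pow_left_inj₀ (norm_nonneg _) (norm_nonneg _) hn.ne').1 h5]
    exact h4
  have h6 : s + t = ((j : ℤ) : ℚ) := h2.unique hm h3
  have h7 : s = ((j : ℤ) : ℚ) + -t := by rw [← h6]; ring
  have h8 : s.den ∣ (((j : ℤ) : ℚ).den).lcm (-t).den := by
    rw [h7]
    exact Rat.add_den_dvd_lcm _ _
  rw [Rat.den_intCast, Nat.lcm_one_left, Rat.den_neg_eq_den] at h8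
  exact hRt (hRs.trans h8)

end Number

end Pool.Agent.U173.DN
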