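import Pool.Agent.U173.DN.Num

/-!
# Denominators of slopes and Betti numbers
-/

set_option autoImplicit false
set_option linter.unusedSectionVars false

namespace Pool.Agent.U173.DN

open Pool.Agent.U173.PT Module

variable {K : Type} [Field K] [CharZero K] {A : Type} [Ring A] [Algebra K A]
  {Γ : Type} [Group Γ] {v : Place Γ} {gr : ℕ → Submodule K A} {ρ : Γ →* (A ≃ₐ[K] A)}

theorem slopeSpace_le (τ : AlgebraicClosure ℚ →+* K) (k : ℕ) (s : ℚ) :
    slopeSpace v gr ρ τ k s ≤ gr k :=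
  iSup₂_le fun _ _ => inf_le_left

theorem slopeSpace_disjoint (hm : 0 < v.m) (τ : AlgebraicClosure ℚ →+* K) (k : ℕ) {s t : ℚ}
    (hst : s ≠ t) : Disjoint (slopeSpace v gr ρ τ k s) (slopeSpace v gr ρ τ k t) := by
  have h1 : iSupIndep fun x : AlgebraicClosure ℚ =>
      Module.End.maxGenEigenspace (ρ v.σ).toLinearMap (τ x) :=
    (Module.End.independent_maxGenEigenspace (ρ v.σ).toLinearMap).comp τ.injective
  have h2 : Disjoint {x | IsSlope v x s} {x | IsSlope v x t} :=
    Set.disjoint_left.2 fun x hx hx' => hst (IsSlope.unique hm hx hx')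
  have h3 := h1.disjoint_biSup_biSup h2
  exact h3.mono (iSup₂_mono fun _ _ => inf_le_right) (iSup₂_mono fun _ _ => inf_le_right)

/-- **Denominators and Betti numbers.** -/
theorem avoids_of_degree [FiniteDimensional K A] (hm : 0 < v.m) {R : ℕ} (hR : 2 < R)
    (hN : NewtonAct v gr ρ) {k : ℕ} (hk : finrank K (gr k) < 2 * R) {γ : K} {t : A}
    (ht : t ∈ gr k) (hγ : IsEigen ρ v.σ γ t) : AvoidsDenominator v R γ := by
  refine ⟨(hN.algebraic γ t hγ).1, fun τ x hx => ?_⟩
  obtain ⟨s, hs⟩ := (hN.algebraic γ t hγ).2 τ x hx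
  refine ⟨s, hs, fun hRs => ?_⟩
  have hle : t ∈ slopeSpace v gr ρ τ k s := by
    refine (le_iSup₂_of_le (f := fun (x : AlgebraicClosure ℚ) (_ : IsSlope v x s) =>
      gr k ⊓ Module.End.maxGenEigenspace (ρ v.σ).toLinearMap (τ x)) x hs le_rfl) ⟨ht, ?_⟩
    rw [SetLike.mem_coe, Module.End.mem_maxGenEigenspace]
    refine ⟨1, ?_⟩
    rw [pow_one, hx]
    change ρ v.σ t - γ • t = 0
    rw [hγ.2, sub_self]
  have h1 : 0 < finrank K (slopeSpace v gr ρ τ k s) := by
    rw [Module.finrank_pos_iff]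
    exact ⟨⟨⟨t, hle⟩, 0, fun h => hγ.1 (congrArg Subtype.val h)⟩⟩
  have h2 : s.den ≤ finrank K (slopeSpace v gr ρ τ k s) := Nat.le_of_dvd h1 (hN.multiple τ k s)
  have h3 : R ≤ s.den := Nat.le_of_dvd s.den_pos hRs
  have hne : s ≠ (k : ℚ) - s := by
    intro h
    have h4 : s = ((k : ℤ) : ℚ) / ((2 : ℤ) : ℚ) := by
      push_cast
      linarith
    have h5 : ((s.den : ℕ) : ℤ) ∣ 2 := by
      rw [h4, ← Rat.divInt_eq_div]
      exact Rat.den_dvd _ _
    have h6 : s.den ∣ 2 := by exact_mod_cast h5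
    have h7 := Nat.le_of_dvd (by norm_num) (hRs.trans h6)
    omega
  have h4 := slopeSpace_disjoint (gr := gr) (ρ := ρ) hm τ k hne
  have h5 := Submodule.finrank_sup_add_finrank_inf_eq (slopeSpace v gr ρ τ k s)
    (slopeSpace v gr ρ τ k ((k : ℚ) - s))
  rw [h4.eq_bot, finrank_bot, add_zero, hN.symmetric τ k s] at h5
  have h6 : finrank K ↥(slopeSpace v gr ρ τ k s ⊔ slopeSpace v gr ρ τ k ((k : ℚ) - s)) ≤
      finrank K (gr k) :=
    Submodule.finrank_mono (sup_le (slopeSpace_le τ k s) (slopeSpace_le τ k _))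
  omega

/-- the Frobenius avoids the denominator if it is determined by small degrees -/
theorem avoids_of_small [FiniteDimensional K A] (hm : 0 < v.m) {R : ℕ} (hR : 2 < R)
    (hR' : IsPrimePow R) (hN : NewtonAct v gr ρ) (hS : SmallAct v R gr ρ) :
    AvoidsAct v R ρ ⊤ := by
  intro α t _ hα
  obtain ⟨n, y, rfl, hy⟩ := hS α t hα
  refine (avoids_q hR' v n).mul hR' (avoids_prod hR' y fun γ hγ => ?_)
  obtain ⟨k, hk, t', ht', hγ'⟩ := hy γ hγ
  exact avoids_of_degree hm hR hN hk ht' hγ'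

/-- an eigenvalue occurs in some degree -/
theorem exists_degree (hint : DirectSum.IsInternal gr) {N : ℕ} (hbd : ∀ i, N ≤ i → gr i = ⊥)
    (hg : ∀ k, ∀ a ∈ gr k, ρ v.σ a ∈ gr k) {α : K} {t : A} (hα : IsEigen ρ v.σ α t) :
    ∃ k, ∃ t ∈ gr k, IsEigen ρ v.σ α t := by
  classical
  have hsum : ∀ a, ∑ i ∈ Finset.range N, H914.proj hint i a = a := fun a => by
    rw [← LinearMap.sum_apply, H914.sum_proj hint hbd]
    rfl
  have hcomm : ∀ k a, H914.proj hint k (ρ v.σ a) = ρ v.σ (H914.proj hint k a) := by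
    intro k a
    conv_lhs => rw [← hsum a, map_sum, map_sum]
    by_cases hk : k < N
    · rw [Finset.sum_eq_single k]
      · exact H914.proj_same hint (hg k _ (H914.proj_mem hint k a))
      · intro i _ hik
        exact H914.proj_ne hint (hg i _ (H914.proj_mem hint i a)) hik
      · intro h
        exact absurd (Finset.mem_range.2 hk) h
    · have h0 : H914.proj hint k a = 0 := by
        have := H914.proj_mem hint k a
        rw [hbd k (not_lt.1 hk)] at this
        exact (Submodule.mem_bot _).1 this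
      rw [h0, map_zero]
      refine Finset.sum_eq_zero fun i hi => ?_
      exact H914.proj_ne hint (hg i _ (H914.proj_mem hint i a))
        (fun h => hk (h ▸ Finset.mem_range.1 hi))
  have hex : ∃ k, H914.proj hint k t ≠ 0 := by
    by_contra hno
    push Not at hno
    apply hα.1
    rw [← hsum t]
    exact Finset.sum_eq_zero fun i _ => hno i
  obtain ⟨k, hk⟩ := hex
  refine ⟨k, _, H914.proj_mem hint k t, hk, ?_⟩
  rw [← hcomm, hα.2, map_smul]

theorem small_of_betti {R : ℕ} (hint : DirectSum.IsInternal gr) {N : ℕ}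
    (hbd : ∀ i, N ≤ i → gr i = ⊥) (hg : ∀ k, ∀ a ∈ gr k, ρ v.σ a ∈ gr k)
    (h : ∀ k, finrank K (gr k) < 2 * R) : SmallAct v R gr ρ := by
  intro α t hα
  obtain ⟨k, t', ht', hα'⟩ := exists_degree hint hbd hg hα
  refine ⟨0, [α], by simp, fun γ hγ => ?_⟩
  rw [List.mem_singleton] at hγ
  subst hγ
  exact ⟨k, h k, t', ht', hα'⟩

end Pool.Agent.U173.DN
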