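import Pool.Agent.U173.PQ.Main
import Pool.Agent.U173.DN.Small

/-!
# The Tate conjecture for products and the denominators of the slopes
-/

set_option autoImplicit false
set_option linter.unusedSectionVars false

open CategoryTheory AlgebraicGeometry
open scoped TensorProduct

universe u

namespace Pool.Agent.U173.DN

open Pool.Agent.H914 Pool.Agent.H914.VarClass Pool.Agent.H914.VarClass.Obj
  Pool.Agent.H914.WeilCohomology Pool.Agent.H281R3.HT Pool.Agent.TH125.Gal
  Pool.Agent.N179.TL Pool.Agent.W552 Pool.Agent.U173.PT Pool.Agent.U173.PQ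

variable {k : Type u} [Field k] {𝒱 : VarClass k} {ops : CycleOps 𝒱}
  {W : WeilCohomology.{u, 0} ops} {Γ : Type} [Group Γ] {χ : Γ →* W.Kˣ}

section

variable {X Y : GVar W Γ} {υ : Γ →* (W.H (X.X.prod Y.X) ≃ₐ[W.K] W.H (X.X.prod Y.X))}

/-- **The splitting.** -/
theorem split_exact [IsAlgClosed W.K] {P : Set (Place Γ)}
    (hP : ∀ v ∈ P, ((χ v.σ : W.Kˣ) : W.K) = (v.p : W.K) ^ v.m)
    {S T : Submodule W.K (W.H X.X)} (hS : ∀ g, ∀ x ∈ S, X.act g x ∈ S)
    (hT : StableAct X.act ⊤ T) (hc : IsCompl T S)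
    (hss : ∀ Δ : Subgroup Γ, Δ.FiniteIndex → ∀ U ≤ T, StableAct X.act Δ U →
      (∀ v ∈ P, SupersingularAct v X.act U) → U = ⊥)
    (hres : ∀ v ∈ P, ∀ (α : W.K), ∀ t ∈ T, IsEigen X.act v.σ α t →
      (∀ (N : ℕ) (b : ℤ), 0 < N → α ^ N ≠ (v.p : W.K) ^ b) →
      ∀ (β : W.K) (b : W.H Y.X), IsEigen Y.act v.σ β b →
      ∀ n i : ℕ, 0 < n → (α * β) ^ n ≠ ((v.p : W.K) ^ v.m) ^ (n * i))
    (h1 : Intertwines (W.map (fst X.X Y.X)) X.act υ)
    (h2 : Intertwines (W.map (snd X.X Y.X)) Y.act υ)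
    {c : W.H (X.X.prod Y.X)} {j : ℕ} {Δ : Subgroup Γ} (hΔ : Δ.FiniteIndex)
    (hcΔ : ∀ g ∈ Δ, υ g c = (χ g : W.K) ^ j • c) :
    c ∈ Submodule.span W.K {w | ∃ a ∈ S, ∃ y : W.H Y.X,
      w = W.map (fst X.X Y.X) a * W.map (snd X.X Y.X) y} := by
  set u := (kEquiv W X.X Y.X).symm c with hu
  have hcu : c = kEquiv W X.X Y.X u := by rw [hu, LinearEquiv.apply_symm_apply]
  have h3 : ∀ g : Δ, TensorProduct.map (X.act (g : Γ)).toLinearMap (Y.act (g : Γ)).toLinearMap u =
      (χ (g : Γ) : W.K) ^ j • u := by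
    intro g
    apply (kEquiv W X.X Y.X).injective
    rw [← kEquiv_act h1 h2, map_smul, ← hcu]
    exact hcΔ g g.2
  obtain ⟨u', hu'⟩ := Pool.Agent.U173.GS.semi hc.symm (G := Δ)
    (fun g => (X.act (g : Γ)).toLinearMap) (fun g => (Y.act (g : Γ)).toLinearMap)
    (fun g => (χ (g : Γ) : W.K) ^ j) (fun g => (X.act (g : Γ)).injective)
    (fun g => (Y.act (g : Γ)).injective)
    (fun g => hS (g : Γ)) (fun g => hT g trivial) h3 (by
      intro U hUT hU0 hUs
      by_contra hno
      apply hU0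
      refine hss Δ hΔ U hUT (fun g hg t ht => hUs ⟨g, hg⟩ t ht) ?_
      intro v hv n α hn t ht hα
      by_contra hno'
      push Not at hno'
      apply hno
      obtain ⟨d, hd, -, hdΔ⟩ := Subgroup.exists_pow_mem_of_index_ne_zero hΔ.index_ne_zero v.σ
      have hg : v.σ ^ (n * d) ∈ Δ := by
        rw [mul_comm, pow_mul]
        exact Subgroup.pow_mem _ hdΔ _
      refine ⟨⟨v.σ ^ (n * d), hg⟩, α ^ d, t, ht, hα.1, ?_, fun β hβ heq => ?_⟩
      · change X.act (v.σ ^ (n * d)) t = α ^ d • t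
        rw [pow_mul]
        exact eigen_pow hα.2 d
      · obtain ⟨a, ha, s, hs, has⟩ := exists_root hT hn (hUT ht) hα
        obtain ⟨y, hy, hy0⟩ := hβ.exists_hasEigenvector
        obtain ⟨b, hb, z, -, hbz⟩ := exists_root (A := Y) (T := ⊤) (fun _ _ _ _ => trivial)
          (Nat.mul_pos hn hd) (t := y) trivial ⟨hy0, Module.End.mem_eigenspace_iff.1 hy⟩
        refine hres v hv a s hs has (fun N b' hN heq' => hno' N (b' * n) hN ?_) b z hbz (n * d)
          j (Nat.mul_pos hn hd) ?_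
        · rw [← ha, ← pow_mul, mul_comm n N, pow_mul, heq', zpow_mul, zpow_natCast]
        · rw [mul_pow, pow_mul a, ha, hb, heq]
          change (χ (v.σ ^ (n * d)) : W.K) ^ j = _
          rw [map_pow, Units.val_pow_eq_pow_val, hP v hv, ← pow_mul])
  rw [hcu, ← hu']
  exact kEquiv_range' u'

end

/-- the eigenvalues on products avoid the denominator -/
theorem avoids_product [IsAlgClosed W.K] {I : Type} {X : I → GVar W Γ} {Z : GVar W Γ} {v : Place Γ}
    {R : ℕ} (hR : IsPrimePow R) {l : List I} {V : GVar W Γ} (h : IsProductOf X Z l V)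
    (hX : ∀ i ∈ l, AvoidsAct v R (X i).act ⊤) (hZ : AvoidsAct v R Z.act ⊤) :
    AvoidsAct v R V.act ⊤ := by
  induction h with
  | nil => exact hZ
  | @cons i l B V hB hV ih =>
    intro γ w _ hw
    obtain ⟨α, β, ⟨a, ha⟩, ⟨b, hb⟩, rfl⟩ := eig_two hV hw
    exact (hX i List.mem_cons_self α a trivial ha).mul hR
      (ih (fun j hj => hX j (List.mem_cons_of_mem _ hj)) β b trivial hb)

/-- small varieties avoid large denominators -/
theorem Avoids.act {A : GVar W Γ} {v : Place Γ} {R : ℕ} (hm : 0 < v.m) (hR' : IsPrimePow R)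
    (h : Avoids v R A) : AvoidsAct v R A.act ⊤ := by
  rcases h with h | ⟨hR, hN, h | h⟩
  · exact h
  · exact avoids_of_small hm hR hR' hN (small_of_betti (N := 2 * A.X.dim + 1) (W.isInternal A.X)
      (fun i hi => W.gr_eq_bot A.X i (by omega)) hN.graded h)
  · exact avoids_of_small hm hR hR' hN h

variable {I I' : Type} {X : I → GVar W Γ} {Y : I' → GVar W Γ} {Z : GVar W Γ}
  {P : I → Set (Place Γ)} {R : I → Place Γ → ℕ} {l' : List I'}

theorem IsDenominatorSystem.tail {i : I} {l : List I}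
    (h : IsDenominatorSystem χ P R X Y Z (i :: l) l') : IsDenominatorSystem χ P R X Y Z l l' :=
  ⟨h.galois, h.point, h.point_others, h.point_base, h.pos, h.character, h.prime, h.splits,
    (List.pairwise_cons.1 h.pairs).2, h.others, h.base⟩

/-- **The Tate classes in a system.** -/
theorem IsDenominatorSystem.areProducts [IsAlgClosed W.K] {i : I} {l : List I}
    (h : IsDenominatorSystem χ P R X Y Z (i :: l) l') {B' B : GVar W Γ}
    (hB' : IsProductOf Y Z l' B') (hB : IsProductOf X B' l B) : AreProducts χ (X i) B := by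
  intro υ h1 h2 n c hc
  refine products_of_split h1 h2 (fun c j Δ hΔ hcΔ => ?_) hc
  obtain ⟨T, hT, hcT, hTR, hss⟩ := h.splits i
  refine split_exact (h.character i) (fun g => tateSpan_stable (h.galois i) g) hT hcT hss ?_ h1 h2
    hΔ hcΔ
  intro v hv α t ht hα hno γ b hb n e hn heq
  have hR := h.prime i v hv
  have hav : AvoidsAct v (R i v) B.act ⊤ :=
    avoids_product hR hB
      (fun j hj => ((List.pairwise_cons.1 h.pairs).1 j hj v hv).act (h.pos i v hv) hR)
      (avoids_product hR hB' (fun j hj => (h.others i j hj v hv).act (h.pos i v hv) hR)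
        ((h.base i v hv).act (h.pos i v hv) hR))
  rcases hTR v hv α t ht hα with ⟨N, b', hN, hb'⟩ | hden
  · exact hno N b' hN hb'
  · exact no_resonance (h.pos i v hv) hden (hav γ b trivial hb) hn heq

/-- **The Tate conjecture for products of arbitrary varieties.** -/
theorem IsDenominatorSystem.tate [IsAlgClosed W.K] {l : List I}
    (h : IsDenominatorSystem χ P R X Y Z l l') {B' V : GVar W Γ} (hB' : IsProductOf Y Z l' B')
    (hV : IsProductOf X B' l V) :
    TateConjecture χ V ↔ (∀ i ∈ l, TateConjecture χ (X i)) ∧ TateConjecture χ B' := by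
  induction hV with
  | nil => simp
  | @cons i l B V hB hV ih =>
    obtain ⟨υ, h1, h2⟩ := hV
    rw [tate_iff (h.point i) (hasPoint_product hB h.point (hasPoint_product hB' h.point_others
      h.point_base)) h1 h2 (h.areProducts hB' hB υ h1 h2), ih h.tail, List.forall_mem_cons,
      and_assoc]

end Pool.Agent.U173.DN
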